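import Pool.Agent.MP_c1891a_nt.H43.Spec

/-
Two very small values lie on an anomalous torsion coset.
-/

namespace Pool.Agent.MP_c1891a_nt.H43

open Filter Topology

theorem anom_large (C a b : ℝ) (hab : a < b) :
    ∃ M₀ : ℕ, ∀ M : ℕ, M₀ ≤ M → C * (M : ℝ) ^ a ≤ (M : ℝ) ^ b := by
  have h1 : Tendsto (fun M : ℕ => (M : ℝ) ^ (b - a)) atTop atTop :=
    (tendsto_rpow_atTop (sub_pos.2 hab)).comp tendsto_natCast_atTop_atTop
  obtain ⟨M₀, hM⟩ := eventually_atTop.1 ((h1.eventually_ge_atTop C).and (eventually_ge_atTop 1))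
  refine ⟨M₀, fun M hMM => ?_⟩
  obtain ⟨h2, h3⟩ := hM M hMM
  have hpos : (0 : ℝ) < M := by exact_mod_cast h3
  have h4 : (M : ℝ) ^ b = (M : ℝ) ^ (b - a) * (M : ℝ) ^ a := by
    rw [← Real.rpow_add hpos]; congr 1; ring
  rw [h4]
  exact mul_le_mul_of_nonneg_right h2 (Real.rpow_nonneg hpos.le _)

theorem anom_prim (r : Fin 4 → ℤ) (hr : r ≠ 0) :
    ∃ (h : ℤ) (v : Fin 4 → ℤ), 0 < h ∧ (∀ i, r i = h * v i) ∧
      ∀ m : ℤ, (∀ i, m ∣ v i) → m ∣ 1 := by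
  classical
  set h : ℤ := Finset.univ.gcd r with hh
  have hd : ∀ i, h ∣ r i := fun i => Finset.gcd_dvd (Finset.mem_univ i)
  have h0 : h ≠ 0 := by
    intro h0
    apply hr
    funext i
    have := hd i
    rw [h0, zero_dvd_iff] at this
    exact this
  choose v hv using hd
  have key : ∀ m : ℤ, (∀ i, m ∣ v i) → m ∣ 1 := by
    intro m hm
    have h1 : h * m ∣ h := by
      conv_rhs => rw [hh]
      refine Finset.dvd_gcd fun i _ => ?_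
      rw [hv i]
      exact mul_dvd_mul_left h (hm i)
    have h2 : h * m ∣ h * 1 := by simpa using h1
    exact (mul_dvd_mul_iff_left h0).1 h2
  rcases lt_or_gt_of_ne h0 with hneg | hpos
  · refine ⟨-h, fun i => -v i, by omega, fun i => by rw [hv i]; ring, fun m hm => key m fun i => ?_⟩
    exact (dvd_neg).1 (hm i)
  · exact ⟨h, v, hpos, hv, key⟩

theorem anom_ne (v : Fin 4 → ℤ) (hv : ∀ m : ℤ, (∀ i, m ∣ v i) → m ∣ 1) : ∃ i, v i ≠ 0 := by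
  by_contra hc
  push Not at hc
  have := hv 2 fun i => by rw [hc i]; exact dvd_zero _
  omega

theorem anom_root {ξ : ℂ} {M g : ℕ} (hM : 0 < M) (hξ : IsPrimitiveRoot ξ M) (hg : g ∣ M) :
    IsPrimitiveRoot (ξ ^ (M / g)) g :=
  hξ.pow hM (Nat.div_mul_cancel hg).symm

theorem anom_pow {ξ : ℂ} (hξ : ξ ≠ 0) (n β : ℕ) (v k : ℤ) :
    ξ ^ ((β : ℤ) * v + (n : ℤ) * k) = (ξ ^ n) ^ k * (ξ ^ β) ^ v := by
  rw [zpow_add₀ hξ, zpow_mul, zpow_mul, zpow_natCast, zpow_natCast, mul_comm]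

theorem anom_bound {h : ℤ} {v : Fin 4 → ℤ} {g : ℕ} {T : ℝ} (hpos : 0 < h) (hg : (g : ℤ) ∣ h)
    (hv : ∀ m : ℤ, (∀ i, m ∣ v i) → m ∣ 1) (hT : ∀ i, (|h * v i| : ℝ) ≤ T) :
    (g : ℝ) ≤ T ∧ ∀ i, (g : ℝ) * |(v i : ℝ)| ≤ T := by
  have hgh : (g : ℝ) ≤ h := by exact_mod_cast Int.le_of_dvd hpos hg
  have hh : (0 : ℝ) < h := by exact_mod_cast hpos
  have h2 : ∀ i, (g : ℝ) * |(v i : ℝ)| ≤ T := fun i => by
    have := hT i
    rw [abs_mul, abs_of_pos hh] at this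
    exact (mul_le_mul_of_nonneg_right hgh (abs_nonneg _)).trans this
  refine ⟨?_, h2⟩
  obtain ⟨i, hi⟩ := anom_ne v hv
  have h3 : (1 : ℝ) ≤ |(v i : ℝ)| := by exact_mod_cast Int.one_le_abs hi
  have h4 := h2 i
  have h5 : (0 : ℝ) ≤ g := Nat.cast_nonneg _
  nlinarith

theorem anom_det {g M T V W a₁ a₂ b₁ b₂ : ℝ} (hM : 1 ≤ M) (hT : 0 ≤ T) (hV : 0 ≤ V) (hW : 0 ≤ W)
    (u2 : g * M ≤ |a₁ * b₂ - a₂ * b₁|) (ha₁ : |a₁| * V ≤ 3 * T) (ha₂ : |a₂| * W ≤ 3 * T)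
    (hb₁ : |b₁| * V ≤ 3 * T) (hb₂ : |b₂| * W ≤ 3 * T) (u8 : 6 * T ≤ M) : g * V * W ≤ 3 * T := by
  have u3 : |a₁ * b₂ - a₂ * b₁| ≤ |a₁| * |b₂| + |a₂| * |b₁| := by
    rw [← abs_mul, ← abs_mul]; exact abs_sub _ _
  have u4 : (|a₁| * V) * (|b₂| * W) ≤ (3 * T) * (3 * T) :=
    mul_le_mul ha₁ hb₂ (by positivity) (by positivity)
  have u5 : (|a₂| * W) * (|b₁| * V) ≤ (3 * T) * (3 * T) :=
    mul_le_mul ha₂ hb₁ (by positivity) (by positivity)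
  have u6 : g * M * (V * W) ≤ (|a₁| * |b₂| + |a₂| * |b₁|) * (V * W) :=
    mul_le_mul_of_nonneg_right (u2.trans u3) (by positivity)
  have u7 : g * V * W * M ≤ 3 * T * (6 * T) := by linarith
  have u9 : 3 * T * (6 * T) ≤ 3 * T * M := mul_le_mul_of_nonneg_left u8 (by positivity)
  exact le_of_mul_le_mul_right (u7.trans u9) (by linarith)

theorem anom_fac {a s U : ℝ} {g g₃ V : ℝ} (hg : 1 ≤ g) (hg₃ : 1 ≤ g₃) (hV : 1 ≤ V)
    (h : a = g * (s * g₃)) (ha : |a| * V ≤ U) : |s| ≤ U := by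
  have u1 : |a| = g * (|s| * g₃) := by
    rw [h, abs_mul, abs_mul, abs_of_nonneg (by linarith : 0 ≤ g),
      abs_of_nonneg (by linarith : 0 ≤ g₃)]
  have u0 : (0 : ℝ) ≤ |s| := abs_nonneg _
  have u2 : |s| ≤ |s| * g₃ := le_mul_of_one_le_right u0 hg₃
  have u3 : |s| * g₃ ≤ g * (|s| * g₃) := le_mul_of_one_le_left (by positivity) hg
  have u4 : |a| ≤ |a| * V := le_mul_of_one_le_right (abs_nonneg _) hV
  linarith

theorem sAnom (h1 : SPig4) (h2 : SRed) (h3 : SRep1) (h4 : SRep2) (h5 : SOne) (h6 : STwoA)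
    (h7 : STwoB) : SAnom := by
  intro P Q
  obtain ⟨N₀, hN₀⟩ := h1
  obtain ⟨M₁, hM₁⟩ := h5 P
  obtain ⟨C₁, hC₁⟩ := h7 P Q
  obtain ⟨C, hC⟩ := h6 P Q C₁
  obtain ⟨M₂, hM₂⟩ := anom_large (C * 18) (44 / 45) (979 / 1000) (by norm_num)
  obtain ⟨M₃, hM₃⟩ := anom_large 36 (44 / 45) 1 (by norm_num)
  refine ⟨N₀ + M₁ + M₂ + M₃ + 1, fun M hM ξ e hξ he hP hQ hPs hQs => ?_⟩
  have hMpos : 0 < M := by omega
  have hM1 : (1 : ℝ) ≤ M := by exact_mod_cast hMpos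
  have hξ0 : ξ ≠ 0 := hξ.ne_zero hMpos.ne'
  have hξM : ξ ^ M = 1 := hξ.pow_eq_one
  have hξn : ‖ξ‖ = 1 := hξ.norm'_eq_one hMpos.ne'
  rcases hN₀ M (by omega) e he with ⟨κ, r, hr, hκ, hs⟩ | ⟨κ₁, κ₂, r₁, r₂, hκ₁, hκ₂, hmin, hs⟩
  · exfalso
    obtain ⟨h, v, hpos, hv, hprim⟩ := anom_prim r hr
    obtain ⟨g, β, k, hg, hgM, hgh, -, hek⟩ := h3 4 M hMpos e he v hprim h κ
      (fun i => by rw [← hv i]; exact hκ i)
    obtain ⟨b1, b2⟩ := anom_bound (T := (M : ℝ) ^ (1 / 15 : ℝ)) hpos hgh hprim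
      (fun i => by have := hs i; rw [hv i] at this; push_cast at this; exact this)
    have hpw : ∀ i, ξ ^ e i = (ξ ^ (M / g)) ^ k i * (ξ ^ β) ^ v i := fun i => by
      rw [hek i]; exact anom_pow hξ0 _ _ _ _
    have h8 := hM₁ M (by omega) g (ξ ^ (M / g)) (ξ ^ β) (k 0) (k 1) (v 0) (v 1) hg
      (anom_root hMpos hξ hgM) (by rw [← pow_mul, mul_comm, pow_mul, hξM, one_pow])
      (by have := b2 0; have := b2 1; push_cast; nlinarith)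
      (by rw [← hpw 0, ← hpw 1]; exact hP)
    rw [← hpw 0, ← hpw 1] at h8
    have h9 := Real.exp_lt_exp.1 (h8.trans_le hPs)
    have h10 : (M : ℝ) ^ (97 / 100 : ℝ) ≤ (M : ℝ) ^ (979 / 1000 : ℝ) :=
      Real.rpow_le_rpow_of_exponent_le hM1 (by norm_num)
    linarith
  · set T : ℕ := ⌈5 * (M : ℝ) ^ (44 / 45 : ℝ)⌉₊ with hTdef
    have hX1 : (1 : ℝ) ≤ (M : ℝ) ^ (44 / 45 : ℝ) := Real.one_le_rpow hM1 (by norm_num)
    have hT1 : 5 * (M : ℝ) ^ (44 / 45 : ℝ) ≤ T := Nat.le_ceil _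
    have hT2 : (T : ℝ) ≤ 6 * (M : ℝ) ^ (44 / 45 : ℝ) := by
      have := Nat.ceil_lt_add_one (a := 5 * (M : ℝ) ^ (44 / 45 : ℝ)) (by positivity)
      linarith
    have hTr : ∀ i, |r₁ i| ≤ T ∧ |r₂ i| ≤ T := fun i => by
      obtain ⟨a, b⟩ := hs i
      constructor
      · have : (|(r₁ i : ℝ)|) ≤ (T : ℝ) := a.trans hT1
        exact_mod_cast this
      · have : (|(r₂ i : ℝ)|) ≤ (T : ℝ) := b.trans hT1
        exact_mod_cast this
    obtain ⟨v, w, a₁, a₂, b₁, b₂, V, W, hprim, hrep, hV, hW, hvw, ha₁, ha₂, hb₁, hb₂⟩ :=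
      h2 r₁ r₂ hmin T hTr
    obtain ⟨g, β₁, β₂, a₁', a₂', b₁', b₂', k, hg, hgM, hek, e1, e2, e3, e4, ⟨t, ht⟩, hdet⟩ :=
      h4 M hMpos e v w hprim a₁ a₂ b₁ b₂ κ₁ κ₂
        (fun i => by rw [← (hrep i).1]; exact hκ₁ i) (fun i => by rw [← (hrep i).2]; exact hκ₂ i)
    obtain ⟨i₀, j₀, hij⟩ := hmin
    have hfac : r₁ i₀ * r₂ j₀ - r₁ j₀ * r₂ i₀ =
        (a₁ * b₂ - a₂ * b₁) * (v i₀ * w j₀ - v j₀ * w i₀) := by
      rw [(hrep i₀).1, (hrep i₀).2, (hrep j₀).1, (hrep j₀).2]; ring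
    have hne : (a₁ * b₂ - a₂ * b₁) * (v i₀ * w j₀ - v j₀ * w i₀) ≠ 0 := by
      rw [← hfac]; exact sub_ne_zero.2 hij
    have hd0 : a₁ * b₂ - a₂ * b₁ ≠ 0 := left_ne_zero_of_mul hne
    have hm0 : v i₀ * w j₀ ≠ v j₀ * w i₀ := sub_ne_zero.1 (right_ne_zero_of_mul hne)
    have hg3 : 0 < Int.gcd a₁' a₂' := by
      rw [Int.gcd_pos_iff]
      by_contra hc
      push Not at hc
      apply hd0
      rw [e1, e2, hc.1, hc.2]; ring
    obtain ⟨s₁, s₂, hcop, f1, f2⟩ := Int.exists_gcd_one hg3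
    set g₃ : ℕ := Int.gcd a₁' a₂' with hg₃
    set v' : Fin 4 → ℤ := fun i => s₁ * v i + s₂ * w i with hv'
    have hprim' : ∀ m : ℤ, (∀ i, m ∣ v' i) → m ∣ 1 := fun m hm => by
      obtain ⟨u1, u2⟩ := hprim m s₁ s₂ hm
      have := Int.dvd_coe_gcd u1 u2
      rw [hcop] at this
      exact_mod_cast this
    have hr1 : ∀ i, r₁ i = ((g : ℤ) * g₃) * v' i := fun i => by
      rw [(hrep i).1, e1, e2, f1, f2, hv']; ring
    have hgg : (0 : ℤ) < (g : ℤ) * g₃ := by positivity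
    obtain ⟨g', β', k', hg', hgM', hgh', -, hek'⟩ := h3 4 M hMpos e he v' hprim' ((g : ℤ) * g₃) κ₁
      (fun i => by rw [← hr1 i]; exact hκ₁ i)
    obtain ⟨c1, c2⟩ := anom_bound (T := (T : ℝ)) hgg hgh' hprim'
      (fun i => by
        have := (hTr i).1
        rw [hr1 i] at this
        exact_mod_cast this)
    have hpw' : ∀ i, ξ ^ e i = (ξ ^ (M / g')) ^ k' i * (ξ ^ β') ^ v' i := fun i => by
      rw [hek' i]; exact anom_pow hξ0 _ _ _ _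
    have hCU : Real.exp (-(M : ℝ) ^ (979 / 1000 : ℝ)) ≤ Real.exp (-(C * (3 * (T : ℝ)))) := by
      apply Real.exp_le_exp.2
      have := hM₂ M (by omega)
      have hC0 : (0 : ℝ) ≤ C := Nat.cast_nonneg _
      nlinarith
    have hX0n : ‖ξ ^ β'‖ = 1 := by rw [norm_pow, hξn, one_pow]
    have hX0 : ξ ^ β' ≠ 0 := pow_ne_zero _ hξ0
    have hT0 : (0 : ℝ) ≤ T := Nat.cast_nonneg _
    obtain ⟨α, hα0, hαa, hαn, hαP, hαQ⟩ := hC g' (ξ ^ (M / g')) (ξ ^ β') k' v' (3 * (T : ℝ)) hg'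
      (anom_root hMpos hξ hgM') hX0n
      (fun i => by have := c2 i; rw [mul_add, mul_one, Int.cast_abs]; linarith)
      (by rw [← hpw' 0, ← hpw' 1]; exact hP)
      (by rw [← hpw' 0, ← hpw' 1]; exact hPs.trans hCU)
      (by rw [← hpw' 2, ← hpw' 3]; exact hQs.trans hCU)
    have hpw : ∀ i, ξ ^ e i = (ξ ^ (M / g)) ^ k i * (ξ ^ β₁) ^ v i * (ξ ^ β₂) ^ w i := fun i => by
      rw [hek i, zpow_add₀ hξ0, zpow_add₀ hξ0, zpow_mul, zpow_mul, zpow_mul, zpow_natCast]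
      ring
    have htor : ∀ n : ℤ, Tor (ξ ^ n) := fun n =>
      ⟨M, hMpos, by rw [← zpow_natCast, ← zpow_mul, mul_comm, zpow_mul, zpow_natCast, hξM,
        one_zpow]⟩
    have hξa : IsAlgebraic ℚ (ξ ^ β') :=
      ((hξ.isIntegral hMpos).tower_top (A := ℚ)).isAlgebraic.pow _
    have hδa : IsAlgebraic ℚ (α / ξ ^ β') := by
      rw [div_eq_mul_inv]; exact hαa.mul hξa.inv
    have hδ0 : α / ξ ^ β' ≠ 0 := div_ne_zero hα0 hX0
    have hδn : ‖α / ξ ^ β' - 1‖ ≤ Real.exp (-(C₁ * (3 * (T : ℝ)))) := by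
      have : α / ξ ^ β' - 1 = (α - ξ ^ β') / ξ ^ β' := by field_simp
      rw [this, norm_div, hX0n, div_one]
      exact hαn
    have hkey : ∀ i, (ξ ^ (M / g)) ^ k i * (ξ ^ β₁ * (α / ξ ^ β') ^ s₁) ^ v i *
        (ξ ^ β₂ * (α / ξ ^ β') ^ s₂) ^ w i = (ξ ^ (M / g')) ^ k' i * α ^ v' i := fun i => by
      have u1 : (α / ξ ^ β') ^ v' i = ((α / ξ ^ β') ^ s₁) ^ v i * ((α / ξ ^ β') ^ s₂) ^ w i := by
        rw [hv']
        simp only []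
        rw [zpow_add₀ hδ0, zpow_mul, zpow_mul]
      have u2 : α ^ v' i = (ξ ^ β') ^ v' i * (α / ξ ^ β') ^ v' i := by
        rw [← mul_zpow]; congr 1; field_simp
      rw [u2, ← mul_assoc, ← hpw' i, hpw i, u1, mul_zpow, mul_zpow]
      ring
    have hgR : (1 : ℝ) ≤ g := by exact_mod_cast hg
    have hg3R : (1 : ℝ) ≤ g₃ := by exact_mod_cast hg3
    have hVR : (1 : ℝ) ≤ V := by exact_mod_cast hV
    have hWR : (1 : ℝ) ≤ W := by exact_mod_cast hW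
    have ha₁R : |(a₁ : ℝ)| * V ≤ 3 * T := by exact_mod_cast ha₁
    have ha₂R : |(a₂ : ℝ)| * W ≤ 3 * T := by exact_mod_cast ha₂
    have hb₁R : |(b₁ : ℝ)| * V ≤ 3 * T := by exact_mod_cast hb₁
    have hb₂R : |(b₂ : ℝ)| * W ≤ 3 * T := by exact_mod_cast hb₂
    have hGVW : (g : ℝ) * V * W ≤ 3 * T := by
      have u1 : ((g * M : ℕ) : ℤ) ≤ |a₁ * b₂ - a₂ * b₁| :=
        Int.le_of_dvd (abs_pos.2 hd0) ((dvd_abs _ _).2 hdet)
      have u2 : (g : ℝ) * M ≤ |(a₁ : ℝ) * b₂ - a₂ * b₁| := by exact_mod_cast u1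
      have u8 : 6 * (T : ℝ) ≤ M := by
        have := hM₃ M (by omega)
        rw [Real.rpow_one] at this
        linarith
      exact anom_det hM1 hT0 (by linarith) (by linarith) u2 ha₁R ha₂R hb₁R hb₂R u8
    have hs1 : |(s₁ : ℝ)| ≤ 3 * T :=
      anom_fac hgR hg3R hVR (by rw [e1, f1]; push_cast; rfl) ha₁R
    have hs2 : |(s₂ : ℝ)| ≤ 3 * T :=
      anom_fac hgR hg3R hWR (by rw [e2, f2]; push_cast; rfl) ha₂R
    have hc1 : (g : ℝ) * |(b₁' : ℝ)| * V ≤ 3 * T := by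
      have u1 : |(b₁ : ℝ)| = g * |(b₁' : ℝ)| := by
        rw [e3]; push_cast
        rw [abs_mul, abs_of_nonneg (Nat.cast_nonneg g)]
      rw [← u1]; exact hb₁R
    have hc2 : (g : ℝ) * |(b₂' : ℝ)| * W ≤ 3 * T := by
      have u1 : |(b₂ : ℝ)| = g * |(b₂' : ℝ)| := by
        rw [e4]; push_cast
        rw [abs_mul, abs_of_nonneg (Nat.cast_nonneg g)]
      rw [← u1]; exact hb₂R
    have hcs : b₁' * s₂ ≠ b₂' * s₁ := by
      intro hc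
      apply hd0
      rw [e1, e2, e3, e4, f1, f2]
      linear_combination (-(g : ℤ) * g * g₃) * hc
    have hωt : (ξ ^ β₁) ^ (-b₂') * (ξ ^ β₂) ^ b₁' = (ξ ^ (M / g)) ^ t := by
      rw [← zpow_mul, ← zpow_mul, ← zpow_add₀ hξ0, ← zpow_natCast, ← zpow_mul, ← ht]
      congr 1; ring
    have hinf := hC₁ g (ξ ^ (M / g)) (ξ ^ β₁) (ξ ^ β₂) (α / ξ ^ β') k v w s₁ s₂ b₁' b₂' t V W
      (3 * (T : ℝ)) hg (anom_root hMpos hξ hgM) (htor _) (htor _) hδa hV hW hvw hGVW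
      (by rw [Int.cast_abs]; exact hc1) (by rw [Int.cast_abs]; exact hc2)
      hs1 hs2 hcs hωt hδn
      ⟨mul_ne_zero (zpow_ne_zero _ hξ0) (zpow_ne_zero _ hδ0),
        mul_ne_zero (zpow_ne_zero _ hξ0) (zpow_ne_zero _ hδ0),
        by simp only []; rw [hkey 0, hkey 1]; exact hαP,
        by simp only []; rw [hkey 2, hkey 3]; exact hαQ⟩
      (by rw [← hpw 0, ← hpw 1]; exact hP) (by rw [← hpw 2, ← hpw 3]; exact hQ)
    refine ⟨fun i => (ξ ^ (M / g)) ^ k i, v, w, ξ ^ β₁, ξ ^ β₂, fun i => ?_,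
      zpow_ne_zero _ hξ0, zpow_ne_zero _ hξ0, ⟨i₀, j₀, hm0⟩, hpw, hinf⟩
    have := htor (((M / g : ℕ) : ℤ) * k i)
    rwa [zpow_mul, zpow_natCast] at this

end Pool.Agent.MP_c1891a_nt.H43
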